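import Mathlib
import Pool.Agent.J4H19.QArcs

/-! Inscribed squares and rectangles in Jordan curves that consist of two arcs `α`, `β` with end
points `p`, `q`, which are seen from `p` and `q` under angles of at most 90 degrees, when near `p` one
of the arcs is coarsely monotone, and near `q` one of the arcs (the same one or the other one) is
coarsely monotone. The other arc is arbitrary there, and there is no regularity assumption
elsewhere. -/

set_option autoImplicit false

namespace Pool.Agent.Results.MP_5a3ebe_gt.CoarselyMonotoneEnds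

open scoped ComplexConjugate

/-- `Start A B d r`: the arcs `A`, `B : ℝ → ℂ` have the same initial point `A 0 = B 0`, and there is a
ray from this point, in a direction `v ≠ 0` with `⟨v, d⟩ ≥ 0`, such that with `κ = i` or `κ = -i`, for
all small parameters `s`, `t > 0`:
* `A s` lies strictly on the side `-κ v` of the ray and `⟨v, A s - A 0⟩ ≥ 0`;
* `B s` lies in the closed quadrant between the directions `v` and `κ v`, i.e. its coordinates
  `x s = ⟨v, B s - B 0⟩` and `y s = ⟨κ v, B s - B 0⟩` are nonnegative, and `B` is coarsely monotone: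
  if `y s < y t` then `x t ≥ x s - y s / r`.
Here `⟨w, z⟩ = re (w * conj z)` is the scalar product. The condition on `B` holds, for instance, if
`x` and `y` are nondecreasing functions of the parameter, and also if `B` lies in a sector
`m₂ y ≤ x ≤ m₁ y` with `0 ≤ m₂`, `m₁ - m₂ ≤ 1 / r`. -/
def Start (A B : ℝ → ℂ) (d : ℂ) (r : ℝ) : Prop :=
  ∃ v κ : ℂ, v ≠ 0 ∧ (κ = Complex.I ∨ κ = -Complex.I) ∧ 0 ≤ (v * conj d).re ∧ ∃ ε > (0 : ℝ),
    (∀ s ∈ Set.Ioc 0 ε, 0 ≤ (v * conj (A s - A 0)).re ∧ (κ * v * conj (A s - A 0)).re < 0) ∧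
    (∀ s ∈ Set.Ioc 0 ε, 0 ≤ (v * conj (B s - B 0)).re ∧ 0 ≤ (κ * v * conj (B s - B 0)).re) ∧
    ∀ s ∈ Set.Ioc 0 ε, ∀ t ∈ Set.Ioc 0 ε,
      (κ * v * conj (B s - B 0)).re < (κ * v * conj (B t - B 0)).re →
      r * ((v * conj (B s - B 0)).re - (v * conj (B t - B 0)).re) ≤ (κ * v * conj (B s - B 0)).re

/-- Let `C` be a Jordan curve parametrised by `c : [0, 1] → ℂ`, let `p = c 0 = c 1` and `q = c u`,
`0 < u < 1`, and let `α = c [0, u]` and `β = c [u, 1]` be the two arcs of `C` between `p` and `q`.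
Suppose that every point of `α` and every point of `β` are seen from `p`, and also from `q`, under an
angle of at most 90 degrees, and that at `p` and at `q` the condition `Start` holds for `α` and `β` in
one of the two orders. Then `C` contains the vertices of a rectangle with sides `|w|` and `r |w|`,
`w ≠ 0`, with two adjacent vertices on `α` and the two other vertices on `β`; for `r = 1` this is a
square. -/
theorem result (c : ℝ → ℂ) (hc : ContinuousOn c (Set.Icc 0 1)) (h01 : c 0 = c 1)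
    (hinj : Set.InjOn c (Set.Ico 0 1)) (u : ℝ) (hu0 : 0 < u) (hu1 : u < 1) (r : ℝ) (hr : 0 < r)
    (hp : ∀ s ∈ Set.Icc 0 u, ∀ t ∈ Set.Icc u 1, 0 ≤ ((c s - c 0) * conj (c t - c 0)).re)
    (hq : ∀ s ∈ Set.Icc 0 u, ∀ t ∈ Set.Icc u 1, 0 ≤ ((c s - c u) * conj (c t - c u)).re)
    (ep : Start c (fun s => c (1 - s)) (c u - c 0) r ∨
      Start (fun s => c (1 - s)) c (c u - c 0) r)
    (eq : Start (fun s => c (u - s)) (fun s => c (u + s)) (c 0 - c u) r ∨
      Start (fun s => c (u + s)) (fun s => c (u - s)) (c 0 - c u) r) :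
    ∃ z w κ : ℂ, w ≠ 0 ∧ (κ = Complex.I ∨ κ = -Complex.I) ∧ z ∈ c '' Set.Icc 0 u ∧
      z + w ∈ c '' Set.Icc 0 u ∧ z + w + r * κ * w ∈ c '' Set.Icc u 1 ∧
      z + r * κ * w ∈ c '' Set.Icc u 1 := by
  have hu1' : 0 < 1 - u := by linarith
  have mA : ∀ t ∈ Set.Icc (0:ℝ) 1, u * t ∈ Set.Icc 0 u := fun t ht =>
    ⟨mul_nonneg hu0.le ht.1, by nlinarith [ht.2]⟩
  have mB : ∀ t ∈ Set.Icc (0:ℝ) 1, 1 - (1 - u) * t ∈ Set.Icc u 1 := fun t ht =>
    ⟨by nlinarith [ht.2], by nlinarith [ht.1]⟩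
  -- the local conditions after the change of parameters
  have stA : ∀ (A B : ℝ → ℂ) (d : ℂ) (x y : ℝ), 0 < x → x ≤ 1 → 0 < y → y ≤ 1 →
      Start A B d r → ∃ κ : ℂ, (κ = Complex.I ∨ κ = -Complex.I) ∧
      Pool.Agent.J4H19.QArcs.StQ (fun s => A (x * s)) (fun s => B (y * s)) d r κ := by
    rintro A B d x y hx hx' hy hy' ⟨v, κ, hv, hκ, hd, ε, hε, hα, hβ, hN⟩
    have m1 : ∀ s ∈ Set.Ioc (0:ℝ) ε, x * s ∈ Set.Ioc 0 ε := fun s hs =>
      ⟨mul_pos hx hs.1, by nlinarith [hs.1, hs.2]⟩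
    have m2 : ∀ s ∈ Set.Ioc (0:ℝ) ε, y * s ∈ Set.Ioc 0 ε := fun s hs =>
      ⟨mul_pos hy hs.1, by nlinarith [hs.1, hs.2]⟩
    refine ⟨κ, hκ, v, hv, hd, ε, hε, ?_, ?_, ?_⟩
    · intro s hs
      simp only [mul_zero]
      exact hα _ (m1 s hs)
    · intro s hs
      simp only [mul_zero]
      exact hβ _ (m2 s hs)
    · intro s hs t ht
      simp only [mul_zero]
      exact hN _ (m2 s hs) _ (m2 t ht)
  have stB : ∀ (A B : ℝ → ℂ) (d : ℂ), (Start A B d r ∨ Start B A d r) →
      ∃ κ : ℂ, (κ = Complex.I ∨ κ = -Complex.I) ∧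
      (Pool.Agent.J4H19.QArcs.StQ (fun s => A (u * s)) (fun s => B ((1 - u) * s)) d r κ ∨
        Pool.Agent.J4H19.QArcs.StQ (fun s => B ((1 - u) * s)) (fun s => A (u * s)) d r (-κ)) := by
    rintro A B d (h | h)
    · obtain ⟨κ, h1, h2⟩ := stA A B d u (1 - u) hu0 hu1.le hu1' (by linarith) h
      exact ⟨κ, h1, Or.inl h2⟩
    · obtain ⟨κ, h1, h2⟩ := stA B A d (1 - u) u hu1' (by linarith) hu0 hu1.le h
      refine ⟨-κ, ?_, Or.inr (by rw [neg_neg]; exact h2)⟩
      rcases h1 with h1 | h1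
      · right; rw [h1]
      · left; rw [h1, neg_neg]
  obtain ⟨κ, hκ, ep'⟩ := stB _ _ _ ep
  obtain ⟨κ', hκ', eq'⟩ := stB _ _ _ eq
  have eA : (fun s : ℝ => c (u * (1 - s))) = fun s => c (u - u * s) := by
    funext s; congr 1; ring
  have eB : (fun s : ℝ => c (1 - (1 - u) * (1 - s))) = fun s => c (u + (1 - u) * s) := by
    funext s; congr 1; ring
  obtain ⟨z, w, hw, ⟨t₁, ht₁, g₁⟩, ⟨t₂, ht₂, g₂⟩, ⟨t₃, ht₃, g₃⟩, ⟨t₄, ht₄, g₄⟩⟩ :=
    Pool.Agent.J4H19.QArcs.arcs (A := fun t => c (u * t))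
      (B := fun t => c (1 - (1 - u) * t)) (r := r) (κ := κ) (κ' := κ')
      (hc.comp (by fun_prop) fun t ht => ⟨(mA t ht).1, (mA t ht).2.trans hu1.le⟩)
      (hc.comp (by fun_prop) fun t ht => ⟨hu0.le.trans (mB t ht).1, (mB t ht).2⟩)
      (by simp [h01]) (by simp)
      (by
        intro s hs t ht h
        have hs1 : u * s ∈ Set.Ico (0:ℝ) 1 := ⟨(mA s hs).1, (mA s hs).2.trans_lt hu1⟩
        have ht1 : u * t ∈ Set.Ico (0:ℝ) 1 := ⟨(mA t ht).1, (mA t ht).2.trans_lt hu1⟩
        exact mul_left_cancel₀ hu0.ne' (hinj hs1 ht1 h))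
      (by
        intro s hs t ht h
        simp only at h
        rcases hs.1.eq_or_lt with h0 | h0
        · rcases ht.1.eq_or_lt with h5 | h5
          · rw [← h0, ← h5]
          · exfalso
            rw [← h0, mul_zero, sub_zero, ← h01] at h
            have h2 := hinj ⟨le_rfl, one_pos⟩ ⟨hu0.le.trans (mB t ht).1, by nlinarith⟩ h
            linarith [(mB t ht).1]
        · rcases ht.1.eq_or_lt with h5 | h5
          · exfalso
            rw [← h5, mul_zero, sub_zero, ← h01] at h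
            have h2 := hinj ⟨hu0.le.trans (mB s hs).1, by nlinarith⟩ ⟨le_rfl, one_pos⟩ h
            linarith [(mB s hs).1]
          · have h2 := hinj ⟨hu0.le.trans (mB s hs).1, by nlinarith⟩
              ⟨hu0.le.trans (mB t ht).1, by nlinarith⟩ h
            exact mul_left_cancel₀ hu1'.ne' (by linarith))
      (by
        intro s hs s' hs' h
        have hs1 : u * s ∈ Set.Ico (0:ℝ) 1 := ⟨(mA s hs).1, (mA s hs).2.trans_lt hu1⟩
        rcases hs'.1.eq_or_lt with h0 | h0
        · rw [← h0, mul_zero, sub_zero, ← h01] at h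
          have h2 := hinj hs1 ⟨le_rfl, one_pos⟩ h
          have h3 : s = 0 := by
            rcases mul_eq_zero.1 h2 with h3 | h3
            · exact absurd h3 hu0.ne'
            · exact h3
          exact ⟨by rw [h3, h0], Or.inl h3⟩
        · have h2 := hinj hs1 ⟨hu0.le.trans (mB s' hs').1, by nlinarith⟩ h
          have h3 := (mA s hs).2
          have h4 := (mB s' hs').1
          have h5 : u * s = u * 1 := by linarith
          have h6 : (1 - u) * s' = (1 - u) * 1 := by linarith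
          have h7 := mul_left_cancel₀ hu0.ne' h5
          have h8 := mul_left_cancel₀ hu1'.ne' h6
          exact ⟨h7.trans h8.symm, Or.inr h7⟩)
      (by
        intro s hs t ht
        simpa using hp _ (mA s hs) _ (mB t ht))
      (by
        intro s hs t ht
        simpa using hq _ (mA s hs) _ (mB t ht)) hr hκ hκ'
      (by simpa using ep')
      (by
        rw [eA, eB]
        simpa using eq')
  exact ⟨z, w, κ, hw, hκ, ⟨_, mA _ ht₁, g₁⟩, ⟨_, mA _ ht₂, g₂⟩, ⟨_, mB _ ht₃, g₃⟩,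
    ⟨_, mB _ ht₄, g₄⟩⟩

end Pool.Agent.Results.MP_5a3ebe_gt.CoarselyMonotoneEnds
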