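import Pool.Agent.J4H80.CU.C1
import Pool.Agent.H145R2.TRobust

/-! Inscribed squares in Jordan curves that are locally monotone or have a cusp at each parameter, in
particular in all piecewise `C¹` Jordan curves, whatever their cusps. -/

set_option autoImplicit false

namespace Pool.Agent.Results.MP_5a3ebe_gt.CuspsAllowed

/-- The curve `c` contains the four vertices of a square. -/
def HasSquare (c : ℝ → ℂ) : Prop :=
  ∃ z w : ℂ, w ≠ 0 ∧ z ∈ Set.range c ∧ z + w ∈ Set.range c ∧
    z + w + Complex.I * w ∈ Set.range c ∧ z + Complex.I * w ∈ Set.range c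

/-- The curve is locally monotone at the parameter `t` (Stromquist): near `t` the scalar product of
the curve with a fixed vector is strictly increasing. -/
def LocallyMonotone (c : ℝ → ℂ) (t : ℝ) : Prop := ∃ ρ > 0, ∃ w : ℂ, ∀ x y : ℝ,
  |x - t| < ρ → |y - t| < ρ → x < y → 0 < (w * (c y - c x)).re

/-- The curve has a cusp at the parameter `t`: near `t` both branches of the curve are on the same
side of `c t` and are Lipschitz graphs over one half-line, with a constant `κ < √2 - 1 = tan 22.5°`:
for some direction all the chords of the arc before `t` (followed towards `c t`) and all the chords of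
the arc after `t` (followed backwards, also towards `c t`) form with it an angle of at most
`arctan κ < 22.5` degrees. The branches may oscillate and need not have tangents. Every common
tangent of two regular `C¹` arcs with the same direction at `c t` is of this kind. -/
def Cusp (c : ℝ → ℂ) (t : ℝ) : Prop := ∃ ρ > 0, ∃ (w : ℂ) (κ : ℝ), w ≠ 0 ∧ 0 < κ ∧ κ < √2 - 1 ∧
  (∀ x y, t - ρ < x → x < y → y ≤ t → |(w * (c y - c x)).im| ≤ κ * (w * (c y - c x)).re) ∧
  (∀ x y, t ≤ x → x < y → y < t + ρ → |(w * (c x - c y)).im| ≤ κ * (w * (c x - c y)).re)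

/-- On `[a, b]` the curve is continuously differentiable and its derivative is different from zero
(one-sided derivatives at `a` and `b`). -/
def RegularOn (c : ℝ → ℂ) (a b : ℝ) : Prop := ∃ d : ℝ → ℂ, ContinuousOn d (Set.Icc a b) ∧
  ∀ s ∈ Set.Icc a b, d s ≠ 0 ∧ HasDerivWithinAt c (d s) (Set.Icc a b) s

/-- Let `c` (continuous, of period `1`, injective on `[0, 1)`) parametrise a Jordan curve.
(1) If at each parameter `t` the curve is locally monotone or has a cusp, it contains the four
vertices of a square. Without cusps this is the theorem of Stromquist.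
(2) In particular every piecewise `C¹` Jordan curve contains the four vertices of a square: it
suffices that every `t` has an interval `[t - ρ, t]` before it and an interval `[t, t + ρ]` after it
on which `c` is continuously differentiable with a derivative different from zero (by compactness:
the curve consists of finitely many regular `C¹` arcs). The arcs may form any angles, also
cusps. -/
theorem result (c : ℝ → ℂ) (hc : Continuous c) (hper : ∀ t, c (t + 1) = c t)
    (hinj : Set.InjOn c (Set.Ico 0 1)) :
    ((∀ t, LocallyMonotone c t ∨ Cusp c t) → HasSquare c) ∧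
    ((∀ t, ∃ ρ > 0, RegularOn c (t - ρ) t ∧ RegularOn c t (t + ρ)) → HasSquare c) := by
  have L : Pool.Agent.H763R2.An.Loop c := ⟨hc, hper⟩
  have hfr : ∀ s, c s = c (Int.fract s) := fun s => by
    have := L.per_int (Int.fract s) ⌊s⌋
    rw [Int.fract_add_floor] at this
    exact this
  have hJ : ∀ s t, c s = c t → ∃ n : ℤ, s = t + n := by
    intro s t hst
    rw [hfr s, hfr t] at hst
    have h := hinj ⟨Int.fract_nonneg s, Int.fract_lt_one s⟩ ⟨Int.fract_nonneg t, Int.fract_lt_one t⟩
      hst
    obtain ⟨m, hm⟩ := Int.fract_eq_fract.1 h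
    exact ⟨m, by linarith⟩
  have J : Pool.Agent.H763R2.An.Inj c := by
    intro x y hxy hy he
    obtain ⟨m, hm⟩ := hJ x y he
    have h1 : (m : ℝ) < 0 := by linarith
    have h2 : (-1 : ℝ) < m := by linarith
    have h3 : m < 0 := by exact_mod_cast h1
    have h4 : -1 < m := by exact_mod_cast h2
    omega
  have hst : (∀ t, Pool.Agent.Y535.PEG.Mon c t) → ¬ Pool.Agent.H763R2.Dm.NoSq (Set.range c) := by
    intro hM nosq
    obtain ⟨ε, hε, h⟩ := H145R2.TSq.main_robust (γ := c) ⟨hc, hper, hJ⟩ (fun τ => by
      obtain ⟨ρ, hρ, w, hw⟩ := hM τ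
      have hw0 : w ≠ 0 := by
        rintro rfl
        have := hw τ (τ + ρ / 2) (by simpa using hρ) (by
          rw [add_sub_cancel_left, abs_of_pos (by positivity)]; linarith) (by linarith)
        simp at this
      set φ : ℂ →L[ℝ] ℝ := Complex.reCLM.comp ((ContinuousLinearMap.mul ℝ ℂ) w) with hφ
      have hφa : ∀ z, φ z = (w * z).re := fun z => by simp [hφ]
      refine ⟨fun z => φ z, Set.univ, Filter.univ_mem, 0, fun z _ => φ.differentiableAt, ?_, ?_, ρ,
        hρ, ?_⟩
      · have : ∀ z, fderiv ℝ (fun z => φ z) z = φ := fun z => φ.fderiv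
        intro x _ y _
        rw [this, this]
        simp
      · have : fderiv ℝ (fun z => φ z) (c τ) = φ := φ.fderiv
        rw [this]
        intro h0
        have h1 : φ (w⁻¹) = 0 := by rw [h0]; rfl
        rw [hφa, mul_inv_cancel₀ hw0] at h1
        simp at h1
      · intro x hx y hy hxy
        rcases lt_or_eq_of_le hxy with h | h
        · have := hw x y (by rw [abs_lt]; constructor <;> linarith [hx.1, hx.2])
            (by rw [abs_lt]; constructor <;> linarith [hy.1, hy.2]) h
          simp only [hφa]
          rw [mul_sub, Complex.sub_re] at this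
          linarith
        · rw [h])
    exact nosq (h c ⟨hc, hper, hJ⟩ (fun t => by rw [sub_self, norm_zero]; exact hε.le))
  have main : (∀ t, Pool.Agent.Y535.PEG.Mon c t ∨ Pool.Agent.J4H80.CU.Csp c t) → HasSquare c :=
    fun H => not_not.1 (Pool.Agent.J4H80.CU.square_of_csp L J H hst)
  refine ⟨fun H => main fun t => ?_, fun H => main fun t => ?_⟩
  · rcases H t with h | ⟨ρ, hρ, w, κ, hw, k0, k1, h1, h2⟩
    · exact Or.inl h
    · refine Or.inr ⟨ρ, hρ, w, κ, hw, k0, ?_, h1, h2⟩
      have hs : √2 ^ 2 = 2 := Real.sq_sqrt (by norm_num)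
      have h0 : 0 ≤ √2 := Real.sqrt_nonneg 2
      nlinarith
  · obtain ⟨ρ, hρ, h1, h2⟩ := H t
    exact Pool.Agent.J4H80.CU.C1On.case hρ h1 h2

end Pool.Agent.Results.MP_5a3ebe_gt.CuspsAllowed
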