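import Pool.Agent.J4H19.StripC

/-! Inscribed squares in Jordan curves that lie in the strip between the perpendiculars to the line
`p q` at `p` and `q` and meet this line at `p` and `q` only, under a condition at `p` and a condition at
`q`. No regularity. -/

set_option autoImplicit false

namespace Pool.Agent.Results.MP_5a3ebe_gt.ExposedEnds

/-- The distance of `z` from the perpendicular at `e` to the line through `e` and `e + d`, divided by
`|d|` (for `z` on the same side of the perpendicular as `e + d`). -/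
noncomputable def X (e d z : ℂ) : ℝ := ((z - e) / d).re

/-- The distance of `z` from the line through `e` and `e + d`, divided by `|d|`. -/
noncomputable def Y (e d z : ℂ) : ℝ := |((z - e) / d).im|

/-- `z` is exposed in the arc `A ([0, a])`, which starts at `e = A 0`: there is no point `w` of the arc
with `Y z < Y w < Y z + X z` and `X w < X z - Y z`. -/
def Exposed (A : ℝ → ℂ) (a : ℝ) (d z : ℂ) : Prop :=
  ∀ s ∈ Set.Icc 0 a, Y (A 0) d z < Y (A 0) d (A s) →
    Y (A 0) d (A s) < Y (A 0) d z + X (A 0) d z → X (A 0) d z - Y (A 0) d z ≤ X (A 0) d (A s)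

/-- The chord from `z` on the arc `A ([0, a])` to `z'` on the arc `B ([0, b])` is good: `X z` or `X z'`
is at most `Y z + Y z'`, or that one of `z`, `z'` with the larger `X` is exposed in its arc. -/
def Good (A B : ℝ → ℂ) (a b : ℝ) (d z z' : ℂ) : Prop :=
  min (X (A 0) d z) (X (A 0) d z') ≤ Y (A 0) d z + Y (A 0) d z' ∨
    (X (A 0) d z' ≤ X (A 0) d z ∧ Exposed A a d z) ∨
    (X (A 0) d z ≤ X (A 0) d z' ∧ Exposed B b d z')

/-- The condition at the common initial point `e = A 0 = B 0` of the arcs `A ([0, a])` and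
`B ([0, b])`. One of the following holds:
* all points of one of the arcs near `e` are exposed (the other arc is arbitrary); for instance, this
  arc is near `e` the graph of a monotone function over the line through `e` and `e + d`;
* there are points `z ≠ e` with `X z ≤ Y z` on the arcs, arbitrarily near `e`;
* a good chord from a point of the first arc to a point of the second one can be moved continuously
  through good chords from a position starting at `e` to a position ending at `e`;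
* near `e`, the two arcs are graphs of Lipschitz functions over the line through `e` and `e + d`, with
  Lipschitz constants `L₁` and `L₂`, `L₁ + L₂ < 1`. -/
def EndCond (A B : ℝ → ℂ) (a b : ℝ) (d : ℂ) : Prop :=
  (∃ ε > 0, ∀ s ∈ Set.Ioo 0 ε, Exposed A a d (A s)) ∨
  (∃ ε > 0, ∀ s ∈ Set.Ioo 0 ε, Exposed B b d (B s)) ∨
  (∀ ε > 0, ∃ s ∈ Set.Ioo 0 ε, X (A 0) d (A s) ≤ Y (A 0) d (A s) ∨
    X (A 0) d (B s) ≤ Y (A 0) d (B s)) ∨
  (∃ s t : ℝ → ℝ, ContinuousOn s (Set.Icc 0 1) ∧ ContinuousOn t (Set.Icc 0 1) ∧ s 0 = 0 ∧ t 1 = 0 ∧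
    ∀ τ ∈ Set.Icc (0 : ℝ) 1, s τ ∈ Set.Icc 0 a ∧ t τ ∈ Set.Icc 0 b ∧ A (s τ) ≠ B (t τ) ∧
      Good A B a b d (A (s τ)) (B (t τ))) ∨
  ∃ ε > 0, ∃ L₁ ≥ 0, ∃ L₂ ≥ 0, L₁ + L₂ < 1 ∧
    (∀ s ∈ Set.Icc 0 ε, ∀ t ∈ Set.Icc 0 ε,
      |Y (A 0) d (A s) - Y (A 0) d (A t)| ≤ L₁ * |X (A 0) d (A s) - X (A 0) d (A t)|) ∧
    ∀ s ∈ Set.Icc 0 ε, ∀ t ∈ Set.Icc 0 ε,
      |Y (A 0) d (B s) - Y (A 0) d (B t)| ≤ L₂ * |X (A 0) d (B s) - X (A 0) d (B t)|

lemma endC_of {A B : ℝ → ℂ} {a b : ℝ} {d : ℂ} (hab : a + b = 1) (h0 : A 0 = B 0) (h1 : A a = B b)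
    (hB : ∀ s, B s = A (-s)) (E : EndCond A B a b d) :
    Pool.Agent.J4H19.StripA.EndC (fun t => X (A 0) d (A t)) (fun t => Y (A 0) d (A t)) a b := by
  rcases E with ⟨ε, hε, h⟩ | ⟨ε, hε, h⟩ | h | ⟨s, t, cs, ct, s0, t1, h⟩ | h
  · exact Or.inl ⟨ε, hε, fun s hs t ht => h s hs t ht⟩
  · refine Or.inr (Or.inl ⟨ε, hε, fun s hs t ht => ?_⟩)
    have := h s hs t ht
    simpa only [← h0, hB, neg_zero] using this
  · refine Or.inr (Or.inr (Or.inl fun ε hε => ?_))
    obtain ⟨s, hs, h2⟩ := h ε hε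
    rw [hB] at h2
    exact ⟨s, hs, h2⟩
  · refine Or.inr (Or.inr (Or.inr (Or.inl ⟨s, t, cs, ct, s0, t1, fun τ hτ => ?_⟩)))
    obtain ⟨g1, g2, g3, g4⟩ := h τ hτ
    refine ⟨g1, g2, ?_, ?_, ?_⟩
    · rcases g1.1.eq_or_lt with k1 | k1
      · rcases g2.1.eq_or_lt with k2 | k2
        · exact absurd (by rw [← k1, ← k2, h0]) g3
        · linarith
      · linarith [g2.1]
    · rcases g1.2.lt_or_eq with k1 | k1
      · linarith [g2.2]
      · rcases g2.2.lt_or_eq with k2 | k2
        · linarith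
        · exact absurd (by rw [k1, k2, h1]) g3
    · simpa only [Good, Exposed, ← h0, hB, neg_zero] using g4
  · refine Or.inr (Or.inr (Or.inr (Or.inr ?_)))
    simp only [hB] at h
    exact h

/-- Let `C` be a Jordan curve, parametrised by `c : ℝ → ℂ` of period `1`. Let `p = c 0`, `q = c u`,
`0 < u < 1`, and suppose that `C` lies in the closed strip between the perpendiculars to the line `p q`
at `p` and at `q`, and that the open arcs `c (0, u)` and `c (u, 1)` lie strictly on the two sides of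
this line. Suppose that `EndCond` holds for the two arcs starting at `p`, and for the two arcs starting
at `q`. Then `C` contains the four vertices of a square. -/
theorem result (c : ℝ → ℂ) (hc : Continuous c) (hper : ∀ t, c (t + 1) = c t)
    (hinj : Set.InjOn c (Set.Ico 0 1)) (u : ℝ) (hu0 : 0 < u) (hu1 : u < 1)
    (hstrip : ∀ t, 0 ≤ ((c t - c 0) / (c u - c 0)).re ∧ ((c t - c 0) / (c u - c 0)).re ≤ 1)
    (hα : ∀ t ∈ Set.Ioo 0 u, ((c t - c 0) / (c u - c 0)).im < 0)
    (hβ : ∀ t ∈ Set.Ioo u 1, 0 < ((c t - c 0) / (c u - c 0)).im)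
    (ep : EndCond (fun s => c s) (fun s => c (-s)) u (1 - u) (c u - c 0))
    (eq : EndCond (fun s => c (u + s)) (fun s => c (u - s)) (1 - u) u (c 0 - c u)) :
    ∃ z w : ℂ, w ≠ 0 ∧ z ∈ Set.range c ∧ z + w ∈ Set.range c ∧
      z + w + Complex.I * w ∈ Set.range c ∧ z + Complex.I * w ∈ Set.range c := by
  by_contra hcon
  have i0 : (0:ℝ) ∈ Set.Ico (0:ℝ) 1 := ⟨le_rfl, one_pos⟩
  have hd : c u - c 0 ≠ 0 := sub_ne_zero.2 fun h => hu0.ne' (hinj ⟨hu0.le, hu1⟩ i0 h)
  obtain ⟨e, he⟩ : ∃ e, e = c 0 := ⟨_, rfl⟩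
  obtain ⟨d, hdd⟩ : ∃ d, d = c u - c 0 := ⟨_, rfl⟩
  rw [← hdd] at hd
  have hcu : c u = e + d := by rw [he, hdd]; ring
  obtain ⟨f, hf⟩ : ∃ f : ℝ → ℂ, f = fun t => Complex.I * (2 * ((c t - e) / d) - 1) := ⟨_, rfl⟩
  have hft : ∀ t, f t = Complex.I * (2 * ((c t - e) / d) - 1) := fun t => by rw [hf]
  have hcf : ∀ t, c t = e + d * (1 - Complex.I * f t) / 2 := by
    intro t
    have h2 : d * ((c t - e) / d) = c t - e := by field_simp
    rw [hft]
    linear_combination (-1 : ℂ) * h2 + (d * (2 * ((c t - e) / d) - 1) / 2) * Complex.I_mul_I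
  have fre : ∀ t, (f t).re = -(2 * ((c t - e) / d).im) := fun t => by rw [hft]; simp
  have fim : ∀ t, (f t).im = 2 * ((c t - e) / d).re - 1 := fun t => by rw [hft]; simp
  have L : Pool.Agent.H763R2.An.Loop f :=
    ⟨by rw [hf]; fun_prop, fun t => by simp only [hft, hper]⟩
  have J0 : ∀ x y : ℝ, x < y → y < x + 1 → c x ≠ c y := by
    intro x y h1 h2 h
    have hfr : ∀ x, c x = c (Int.fract x) := by
      intro x
      have := (show Function.Periodic c 1 from hper).sub_int_mul_eq (x := x) ⌊x⌋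
      rw [mul_one] at this
      exact this.symm
    have h3 := hinj ⟨Int.fract_nonneg x, Int.fract_lt_one x⟩
      ⟨Int.fract_nonneg y, Int.fract_lt_one y⟩ (by rw [← hfr, ← hfr]; exact h)
    obtain ⟨k, hk⟩ := Int.fract_eq_fract.1 h3.symm
    have k1 : (0:ℝ) < k := by linarith
    have k2 : (k:ℝ) < 1 := by linarith
    have k3 : 0 < k := by exact_mod_cast k1
    have k4 : k < 1 := by exact_mod_cast k2
    omega
  have J : Pool.Agent.H763R2.An.Inj f := by
    intro x y h1 h2 h
    apply J0 x y h1 h2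
    rw [hcf x, hcf y, h]
  have P : f 0 = -Complex.I := by rw [hft, he]; simp
  have Q : f u = Complex.I := by
    rw [hft, hcu, add_sub_cancel_left, div_self hd]; ring
  have strip' : ∀ t, 0 ≤ ((c t - e) / d).re ∧ ((c t - e) / d).re ≤ 1 := by
    rw [he, hdd]; exact hstrip
  have hα' : ∀ t ∈ Set.Ioo 0 u, ((c t - e) / d).im < 0 := by rw [he, hdd]; exact hα
  have hβ' : ∀ t ∈ Set.Ioo u 1, 0 < ((c t - e) / d).im := by rw [he, hdd]; exact hβ
  have rp : ∀ t ∈ Set.Ioo 0 u, 0 < (f t).re := fun t ht => by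
    rw [fre]; have := hα' t ht; linarith
  have rn : ∀ t ∈ Set.Ioo u 1, (f t).re < 0 := fun t ht => by
    rw [fre]; have := hβ' t ht; linarith
  have st : ∀ t, |(f t).im| ≤ 1 := fun t => by
    rw [fim, abs_le]
    have := strip' t
    constructor <;> linarith [this.1, this.2]
  have c10 : c 1 = c 0 := by have := hper 0; rwa [zero_add] at this
  -- the condition at `p`
  have Kp : Pool.Agent.J4H19.StripA.CondS f u := by
    have E := endC_of (by ring) (by simp only [neg_zero]) (by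
      have := hper (-(1 - u))
      rw [show -(1 - u) + 1 = u by ring] at this
      exact this) (fun s => rfl) ep
    rw [← hdd, ← he] at E
    refine Pool.Agent.J4H19.StripA.conds_of L J hu0 hu1 P Q rp rn (fun t => ?_) (fun t => ?_) E
    · rw [fim]; simp only [X]; ring
    · rw [fre, abs_neg, abs_mul, abs_of_pos (by norm_num : (0:ℝ) < 2)]; rfl
  -- the condition at `q`
  have Kq : Pool.Agent.J4H19.StripA.CondS (fun t => -f (t + u)) (1 - u) := by
    have E := endC_of (by ring) (by simp only [add_zero, sub_zero]) (by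
      simp only [sub_self, add_sub_cancel]
      exact c10) (fun s => by simp only [sub_eq_add_neg]) eq
    have e1 : c 0 - c u = -d := by rw [hdd]; ring
    rw [e1, add_zero, hcu] at E
    have hz : ∀ t, (c (u + t) - (e + d)) / -d = 1 - (c (t + u) - e) / d := by
      intro t
      rw [add_comm u t]
      field_simp
      ring
    refine Pool.Agent.J4H19.StripA.conds_of (L.shift u).negc
      (fun x y h1 h2 h => (J.shift u) x y h1 h2 (neg_injective h)) (by linarith) (by linarith)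
      ?_ ?_ ?_ ?_ (x := fun t => X (e + d) (-d) (c (u + t)))
      (y := fun t => Y (e + d) (-d) (c (u + t))) (fun t => ?_) (fun t => ?_)
      (by rw [sub_sub_cancel]; exact E)
    · simp only [zero_add, Q]
    · have := L.per 0
      rw [zero_add, P] at this
      simp only [sub_add_cancel, this, neg_neg]
    · intro t ht
      have := rn (t + u) ⟨by linarith [ht.1], by linarith [ht.2]⟩
      rw [Complex.neg_re]; linarith
    · intro t ht
      have := rp (t + u - 1) ⟨by linarith [ht.1], by linarith [ht.2]⟩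
      have e := L.per (t + u - 1)
      rw [sub_add_cancel] at e
      rw [Complex.neg_re, e]; linarith
    · simp only [X, hz, Complex.neg_im, fim, Complex.sub_re, Complex.one_re]
      ring
    · simp only [Y, hz, Complex.neg_re, fre, Complex.sub_im, Complex.one_im, neg_neg, zero_sub,
        abs_neg, abs_mul]
      rw [abs_of_pos (by norm_num : (0:ℝ) < 2)]
  refine Pool.Agent.J4H19.StripA.strip_main L J hu0 hu1 P Q st rp rn Kp Kq ?_
  rintro ⟨z, w, hw, ⟨t₁, h₁⟩, ⟨t₂, h₂⟩, ⟨t₃, h₃⟩, ⟨t₄, h₄⟩⟩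
  refine hcon ⟨c t₁, -(Complex.I * d * w / 2), ?_, ⟨t₁, rfl⟩, ⟨t₂, ?_⟩, ⟨t₃, ?_⟩, ⟨t₄, ?_⟩⟩
  · exact neg_ne_zero.2 (div_ne_zero (mul_ne_zero (mul_ne_zero Complex.I_ne_zero hd) hw)
      two_ne_zero)
  · rw [hcf t₂, hcf t₁, h₁, h₂]; ring
  · rw [hcf t₃, hcf t₁, h₁, h₃]; ring
  · rw [hcf t₄, hcf t₁, h₁, h₄]; ring

end Pool.Agent.Results.MP_5a3ebe_gt.ExposedEnds
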