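import Mathlib
import Pool.Agent.J4H19.Tails

/-! Inscribed squares and rectangles in Jordan curves that consist of two monotone arcs (for instance
of two graphs of arbitrary continuous functions) and are seen from the two common end points of these
arcs under angles of at most 90 degrees. No regularity. -/

set_option autoImplicit false

namespace Pool.Agent.Results.MP_5a3ebe_gt.TwoMonotoneArcs

open scoped ComplexConjugate

/-- Let `C` be a Jordan curve parametrised by `c : ℝ → ℂ` of period `1`, let `p = c 0` and `q = c u`,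
`0 < u < 1`, and let `α = c [0, u]` and `β = c [u, 1]` be the two arcs of `C` between `p` and `q`.
Suppose that `α` is monotone (perhaps not strictly) in the direction of some vector `e₁`, that `β` is
monotone in the direction of some vector `e₂`, and that every point of `α` and every point of `β` are
seen from `p`, and also from `q`, under an angle of at most 90 degrees. Then for every `r > 0` there
is a rectangle with sides `|w|` and `r |w|`, `w ≠ 0`, with two adjacent vertices on `α` and the two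
other vertices on `β`; for `r = 1` this is a square. -/
theorem result (c : ℝ → ℂ) (hc : Continuous c) (hper : ∀ t, c (t + 1) = c t)
    (hinj : Set.InjOn c (Set.Ico 0 1)) (u : ℝ) (hu0 : 0 < u) (hu1 : u < 1) (e₁ e₂ : ℂ)
    (hα : MonotoneOn (fun t => (conj e₁ * c t).re) (Set.Icc 0 u))
    (hα' : (conj e₁ * c 0).re < (conj e₁ * c u).re)
    (hβ : AntitoneOn (fun t => (conj e₂ * c t).re) (Set.Icc u 1))
    (hβ' : (conj e₂ * c 0).re < (conj e₂ * c u).re)
    (hp : ∀ s ∈ Set.Icc 0 u, ∀ t ∈ Set.Icc u 1, 0 ≤ ((c s - c 0) * conj (c t - c 0)).re)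
    (hq : ∀ s ∈ Set.Icc 0 u, ∀ t ∈ Set.Icc u 1, 0 ≤ ((c s - c u) * conj (c t - c u)).re)
    (r : ℝ) (hr : 0 < r) :
    ∃ z w : ℂ, w ≠ 0 ∧ z ∈ c '' Set.Icc 0 u ∧ z + w ∈ c '' Set.Icc 0 u ∧
      z + w + r * Complex.I * w ∈ c '' Set.Icc u 1 ∧ z + r * Complex.I * w ∈ c '' Set.Icc u 1 := by
  have hu1' : 0 < 1 - u := by linarith
  have h10 : c 1 = c 0 := by have := hper 0; rwa [zero_add] at this
  have mA : ∀ t ∈ Set.Icc (0:ℝ) 1, u * t ∈ Set.Icc 0 u := fun t ht =>
    ⟨mul_nonneg hu0.le ht.1, by nlinarith [ht.2]⟩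
  have mB : ∀ t ∈ Set.Icc (0:ℝ) 1, 1 - (1 - u) * t ∈ Set.Icc u 1 := fun t ht =>
    ⟨by nlinarith [ht.2], by nlinarith [ht.1]⟩
  obtain ⟨z, w, hw, ⟨t₁, ht₁, g₁⟩, ⟨t₂, ht₂, g₂⟩, ⟨t₃, ht₃, g₃⟩, ⟨t₄, ht₄, g₄⟩⟩ :=
    Pool.Agent.J4H19.Tails.rect_arcs (fun t => c (u * t)) (fun t => c (1 - (1 - u) * t))
      (by fun_prop) (by fun_prop) (by simp [h10]) (by simp)
      (by
        simp only [mul_zero, mul_one]
        intro h
        rw [h] at hα'
        exact lt_irrefl _ hα')
      (by
        intro s hs s' hs' h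
        have hs1 : u * s ∈ Set.Ico (0:ℝ) 1 := ⟨(mA s hs).1, (mA s hs).2.trans_lt hu1⟩
        rcases hs'.1.eq_or_lt with h0 | h0
        · rw [← h0, mul_zero, sub_zero, h10] at h
          have h2 := hinj hs1 ⟨le_rfl, one_pos⟩ h
          have h3 : s = 0 := by
            rcases mul_eq_zero.1 h2 with h3 | h3
            · exact absurd h3 hu0.ne'
            · exact h3
          exact ⟨by rw [h3, h0], Or.inl h3⟩
        · have h2 := hinj hs1 ⟨hu0.le.trans (mB s' hs').1, by nlinarith⟩ h
          have h3 := (mA s hs).2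
          have h4 := (mB s' hs').1
          have h5 : u * s = u * 1 := by linarith
          have h6 : (1 - u) * s' = (1 - u) * 1 := by linarith
          have h7 := mul_left_cancel₀ hu0.ne' h5
          have h8 := mul_left_cancel₀ hu1'.ne' h6
          exact ⟨h7.trans h8.symm, Or.inr h7⟩)
      e₁ e₂
      (by
        intro s hs t ht hst
        exact hα (mA s hs) (mA t ht) (mul_le_mul_of_nonneg_left hst hu0.le))
      (by simpa using hα')
      (by
        intro s hs t ht hst
        exact hβ (mB t ht) (mB s hs) (by nlinarith))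
      (by simpa [h10] using hβ')
      (by
        intro s hs t ht
        simpa using hp _ (mA s hs) _ (mB t ht))
      (by
        intro s hs t ht
        simpa using hq _ (mA s hs) _ (mB t ht)) r hr
  exact ⟨z, w, hw, ⟨_, mA _ ht₁, g₁⟩, ⟨_, mA _ ht₂, g₂⟩, ⟨_, mB _ ht₃, g₃⟩, ⟨_, mB _ ht₄, g₄⟩⟩

end Pool.Agent.Results.MP_5a3ebe_gt.TwoMonotoneArcs
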